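import Mathlib

/-!
# The real inequality behind the failure of the H-conjecture in function fields
-/

set_option autoImplicit false

namespace Pool.Agent.FFH

/-- If `Q = q ^ n ≤ n w`, then `q ^ Q / (log (q ^ Q)) ^ w` is at most `exp ((Q / n) |log log q|)`. -/
theorem log_H_le {q n w : ℕ} (hq : 2 ≤ q) (hn : 0 < n) (hw : q ^ n ≤ n * w) :
    0 < (q : ℝ) ^ (q ^ n) / Real.log ((q : ℝ) ^ (q ^ n)) ^ w ∧
    Real.log ((q : ℝ) ^ (q ^ n) / Real.log ((q : ℝ) ^ (q ^ n)) ^ w) ≤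
      ((q : ℝ) ^ n / n) * |Real.log (Real.log q)| := by
  have hq' : (2 : ℝ) ≤ q := by exact_mod_cast hq
  have hq0 : (0 : ℝ) < q := by linarith
  have hn' : (0 : ℝ) < n := by exact_mod_cast hn
  have hl2 : (0.69 : ℝ) < Real.log 2 := by
    have := Real.log_two_gt_d9
    linarith
  have hlq2 : Real.log 2 ≤ Real.log q := Real.log_le_log (by norm_num) hq'
  have hlq : 0 < Real.log q := by linarith
  have hQ2 : (2 : ℝ) ≤ (q : ℝ) ^ n := by
    calc (2 : ℝ) ≤ q := hq'
      _ = (q : ℝ) ^ 1 := (pow_one _).symm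
      _ ≤ (q : ℝ) ^ n := pow_le_pow_right₀ (by linarith) hn
  have hQ0 : (0 : ℝ) < (q : ℝ) ^ n := by linarith
  have hlog : Real.log ((q : ℝ) ^ (q ^ n)) = (q : ℝ) ^ n * Real.log q := by
    rw [Real.log_pow]
    push_cast
    ring
  have hbig : 1 < (q : ℝ) ^ n * Real.log q := by nlinarith
  have hpos : 0 < (q : ℝ) ^ n * Real.log q := by linarith
  have hL : Real.log ((q : ℝ) ^ n * Real.log q) = n * Real.log q + Real.log (Real.log q) := by
    rw [Real.log_mul hQ0.ne' hlq.ne', Real.log_pow]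
  have hL0 : 0 < Real.log ((q : ℝ) ^ n * Real.log q) := Real.log_pos hbig
  have hnum : (0 : ℝ) < (q : ℝ) ^ (q ^ n) := pow_pos hq0 _
  have hden : 0 < ((q : ℝ) ^ n * Real.log q) ^ w := pow_pos hpos _
  rw [hlog]
  refine ⟨div_pos hnum hden, ?_⟩
  rw [Real.log_div hnum.ne' hden.ne', Real.log_pow, Real.log_pow ((q : ℝ) ^ n * Real.log q)]
  rw [hL] at hL0 ⊢
  have hw' : (q : ℝ) ^ n / n ≤ w := by
    rw [div_le_iff₀ hn']
    have : ((q ^ n : ℕ) : ℝ) ≤ ((n * w : ℕ) : ℝ) := by exact_mod_cast hw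
    push_cast at this
    linarith
  have h1 : (q : ℝ) ^ n / n * (n * Real.log q + Real.log (Real.log q)) ≤
      w * (n * Real.log q + Real.log (Real.log q)) :=
    mul_le_mul_of_nonneg_right hw' hL0.le
  have h2 : (q : ℝ) ^ n / n * (n * Real.log q + Real.log (Real.log q)) =
      (q : ℝ) ^ n * Real.log q + (q : ℝ) ^ n / n * Real.log (Real.log q) := by
    field_simp
  have h3 : -((q : ℝ) ^ n / n * Real.log (Real.log q)) ≤
      (q : ℝ) ^ n / n * |Real.log (Real.log q)| := by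
    have h4 : -(Real.log (Real.log q)) ≤ |Real.log (Real.log q)| := neg_le_abs _
    have h5 : 0 ≤ (q : ℝ) ^ n / n := by positivity
    nlinarith [mul_le_mul_of_nonneg_left h4 h5]
  push_cast
  linarith

/-- For all `A`, `C` some `n` has `C * exp (A (Q / n) |log log q|) < q ^ (Q - 1)`, `Q = q ^ n`. -/
theorem exists_n {q : ℕ} (hq : 2 ≤ q) (A C : ℝ) (hA : 0 < A) :
    ∃ n : ℕ, 0 < n ∧
      C * Real.exp (A * (((q : ℝ) ^ n / n) * |Real.log (Real.log q)|)) < (q : ℝ) ^ (q ^ n - 1) := by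
  have hq' : (2 : ℝ) ≤ q := by exact_mod_cast hq
  have hq0 : (0 : ℝ) < q := by linarith
  have hlq : 0 < Real.log q := Real.log_pos (by linarith)
  set l := |Real.log (Real.log q)| with hl
  have hl0 : 0 ≤ l := abs_nonneg _
  set D := max C 1 with hD
  have hD1 : 1 ≤ D := le_max_right _ _
  have hD0 : 0 < D := by linarith
  have hlD : 0 ≤ Real.log D := Real.log_nonneg hD1
  obtain ⟨n, hn⟩ := exists_nat_gt (1 + 2 * A * l / Real.log q + 2 * (Real.log D / Real.log q + 1))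
  have e1 : 0 ≤ 2 * A * l / Real.log q := by positivity
  have e2 : 0 ≤ Real.log D / Real.log q := by positivity
  have hn0 : (0 : ℝ) < n := by linarith
  have hn0' : 0 < n := by exact_mod_cast hn0
  refine ⟨n, hn0', ?_⟩
  have hnQ : (n : ℝ) < (q : ℝ) ^ n := by
    have : n < q ^ n := Nat.lt_pow_self (by omega)
    exact_mod_cast this
  have hQ0 : (0 : ℝ) < (q : ℝ) ^ n := by positivity
  have h1 : A * (((q : ℝ) ^ n / n) * l) ≤ (q : ℝ) ^ n * Real.log q / 2 := by
    have e3 : 2 * A * l / Real.log q ≤ n := by linarith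
    rw [div_le_iff₀ hlq] at e3
    have e4 : A * (((q : ℝ) ^ n / n) * l) = (q : ℝ) ^ n * (A * l) / n := by ring
    rw [e4, div_le_div_iff₀ hn0 (by norm_num)]
    nlinarith [mul_le_mul_of_nonneg_left e3 hQ0.le]
  have h2 : Real.log D < ((q : ℝ) ^ n / 2 - 1) * Real.log q := by
    have e3 : Real.log D / Real.log q < (q : ℝ) ^ n / 2 - 1 := by linarith
    rwa [div_lt_iff₀ hlq] at e3
  have h3 : (q : ℝ) ^ (q ^ n - 1) = Real.exp (((q : ℝ) ^ n - 1) * Real.log q) := by
    have h4 : 1 ≤ q ^ n := Nat.one_le_pow _ _ (by omega)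
    rw [← Real.exp_log (pow_pos hq0 (q ^ n - 1)), Real.log_pow, Nat.cast_sub h4]
    push_cast
    ring_nf
  rw [h3]
  calc C * Real.exp (A * (((q : ℝ) ^ n / n) * l))
      ≤ D * Real.exp (A * (((q : ℝ) ^ n / n) * l)) :=
        mul_le_mul_of_nonneg_right (le_max_left _ _) (Real.exp_pos _).le
    _ = Real.exp (Real.log D + A * (((q : ℝ) ^ n / n) * l)) := by
        rw [Real.exp_add, Real.exp_log hD0]
    _ < Real.exp (((q : ℝ) ^ n - 1) * Real.log q) := by
        rw [Real.exp_lt_exp]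
        linarith

end Pool.Agent.FFH
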