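import Mathlib

/-!
# The triple `1 + (X ^ (q ^ n - 1) - 1) = X ^ (q ^ n - 1)` over a finite field with `q` elements

Its radical is `X ^ (q ^ n) - X`, which has at least `q ^ n / n` prime factors.
-/

set_option autoImplicit false

namespace Pool.Agent.FFH

open Polynomial UniqueFactorizationMonoid

set_option linter.unusedSectionVars false

variable {F : Type} [Field F] [Finite F] [DecidableEq F]

theorem two_le_pow {n : ℕ} (hn : 0 < n) : 2 ≤ Nat.card F ^ n := by
  have h1 : 1 < Nat.card F := Finite.one_lt_card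
  calc 2 ≤ Nat.card F ^ 1 := by rw [pow_one]; exact h1
    _ ≤ Nat.card F ^ n := Nat.pow_le_pow_right (by omega) hn

theorem cast_pow_eq_zero {n : ℕ} (hn : 0 < n) : ((Nat.card F ^ n : ℕ) : F) = 0 := by
  have : Fintype F := Fintype.ofFinite F
  rw [Nat.cast_pow, Nat.card_eq_fintype_card, FiniteField.cast_card_eq_zero, zero_pow hn.ne']

theorem sub_one_ne {n : ℕ} (hn : 0 < n) : ((Nat.card F ^ n - 1 : ℕ) : F) ≠ 0 := by
  have h2 := two_le_pow (F := F) hn
  rw [Nat.cast_sub (by omega), cast_pow_eq_zero hn]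
  simp

theorem b_ne {n : ℕ} (hn : 0 < n) : (X ^ (Nat.card F ^ n - 1) - 1 : F[X]) ≠ 0 := by
  have h2 := two_le_pow (F := F) hn
  have := X_pow_sub_C_ne_zero (R := F) (n := Nat.card F ^ n - 1) (by omega) 1
  simpa using this

theorem deriv_ne {n : ℕ} (hn : 0 < n) : derivative (X ^ (Nat.card F ^ n - 1) : F[X]) ≠ 0 := by
  rw [derivative_X_pow]
  apply mul_ne_zero
  · rw [Ne, C_eq_zero]
    exact sub_one_ne hn
  · exact pow_ne_zero _ X_ne_zero

theorem big_eq {n : ℕ} (hn : 0 < n) :
    (X ^ (Nat.card F ^ n - 1) - 1 : F[X]) * X = X ^ Nat.card F ^ n - X := by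
  have h2 := two_le_pow (F := F) hn
  rw [sub_mul, one_mul, ← pow_succ]
  congr 2
  omega

theorem big_ne {n : ℕ} (hn : 0 < n) : (X ^ Nat.card F ^ n - X : F[X]) ≠ 0 := by
  rw [← big_eq hn]
  exact mul_ne_zero (b_ne hn) X_ne_zero

theorem primeFactors_abc {n : ℕ} (hn : 0 < n) :
    primeFactors (1 * (X ^ (Nat.card F ^ n - 1) - 1) * X ^ (Nat.card F ^ n - 1) : F[X]) =
      primeFactors (X ^ Nat.card F ^ n - X : F[X]) := by
  have h2 := two_le_pow (F := F) hn
  rw [one_mul, primeFactors_mul_eq_union (b_ne hn) (pow_ne_zero _ X_ne_zero),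
    primeFactors_pow _ (by omega), ← primeFactors_mul_eq_union (b_ne hn) X_ne_zero, big_eq hn]

theorem radical_abc {n : ℕ} (hn : 0 < n) :
    radical (1 * (X ^ (Nat.card F ^ n - 1) - 1) * X ^ (Nat.card F ^ n - 1) : F[X]) =
      radical (X ^ Nat.card F ^ n - X : F[X]) := by
  rw [radical_eq_iff_primeFactors_eq, primeFactors_abc hn]

theorem natDegree_radical_big {n : ℕ} (hn : 0 < n) :
    (radical (X ^ Nat.card F ^ n - X : F[X])).natDegree = Nat.card F ^ n := by
  have h1 : 1 < Nat.card F := Finite.one_lt_card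
  obtain ⟨p, hp⟩ := CharP.exists F
  have hsep : Separable (X ^ Nat.card F ^ n - X : F[X]) := by
    apply galois_poly_separable p
    rw [← CharP.cast_eq_zero_iff F p]
    exact cast_pow_eq_zero hn
  have hrad : IsRadical (X ^ Nat.card F ^ n - X : F[X]) := hsep.squarefree.isRadical
  have hass := radical_associated hrad (big_ne hn)
  rw [natDegree_eq_of_degree_eq (degree_eq_degree_of_associated hass)]
  exact FiniteField.X_pow_card_pow_sub_X_natDegree_eq F hn.ne' h1

theorem card_primeFactors_big {n : ℕ} (hn : 0 < n) :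
    Nat.card F ^ n ≤ n * (primeFactors (X ^ Nat.card F ^ n - X : F[X])).card := by
  have h := natDegree_radical_big (F := F) hn
  rw [radical] at h
  have h1 : ((primeFactors (X ^ Nat.card F ^ n - X : F[X])).prod id).natDegree ≤
      ∑ g ∈ primeFactors (X ^ Nat.card F ^ n - X : F[X]), g.natDegree :=
    natDegree_prod_le _ _
  have h2 : ∑ g ∈ primeFactors (X ^ Nat.card F ^ n - X : F[X]), g.natDegree ≤
      (primeFactors (X ^ Nat.card F ^ n - X : F[X])).card • n := by
    apply Finset.sum_le_card_nsmul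
    intro g hg
    rw [mem_primeFactors] at hg
    exact Nat.le_of_dvd hn ((irreducible_of_normalized_factor g hg).natDegree_dvd_of_dvd_X_pow_card_pow_sub_X
      (dvd_of_mem_normalizedFactors hg))
  rw [smul_eq_mul, mul_comm] at h2
  omega

end Pool.Agent.FFH
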